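import Pool.Agent.Lib.MP_a37f0b_ag.Prim

/-!
The question of Nori and Rao for essentially smooth local algebras over a principal ideal domain.
-/

open IsLocalRing Pool.Agent.Lib.MP_a37f0b_ag

theorem Pool.Agent.Results.MP_a37f0b_ag.Smooth.result
    (V : Type) [CommRing V] [IsDomain V] [IsPrincipalIdealRing V]
    (R : Type) [CommRing R] [IsLocalRing R] [Algebra V R] [Algebra.EssFiniteType V R]
    [Algebra.FormallySmooth V R] (t : ℕ) (r : Fin t → R)
    (hm : ∀ i, r i ∈ maximalIdeal R)
    (hr : ∀ a : Fin t → R, ∑ i, a i * r i ∈ maximalIdeal R ^ 2 → ∀ i, a i ∈ maximalIdeal R)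
    [Algebra.FormallySmooth V (R ⧸ Ideal.span (Set.range r))] (v : V) (hv : v ≠ 0)
    (P : Type) [AddCommGroup P] [Module (Localization.Away (algebraMap V R v * ∏ i, r i)) P]
    [Module.Finite (Localization.Away (algebraMap V R v * ∏ i, r i)) P]
    [Module.Projective (Localization.Away (algebraMap V R v * ∏ i, r i)) P] :
    Module.Free (Localization.Away (algebraMap V R v * ∏ i, r i)) P := by
  obtain ⟨τ, _, γ, e, _, h1, h2, h3⟩ := exists_coord (A := V) (indep_of_smooth hm hr)
  have h4 : γ (MvPolynomial.C v * ∏ i ∈ Finset.univ.map e, MvPolynomial.X i) =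
      algebraMap V R v * ∏ i, r i := by simp [h3, ← h2]
  refine AllFree.free ((h4 ▸ et_free h1 hv _ :) _ _ (isLoc_loc (zero_notMem_powers ?_))) P
  rw [← h4, map_ne_zero_iff _ h1.inj]
  exact mul_ne_zero (by simpa using hv) (Finset.prod_ne_zero_iff.2 fun i _ => MvPolynomial.X_ne_zero i)
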